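import Mathlib

/-!
# Finitary linear automorphisms: partial conjugations are realized in finite dimension
-/

set_option autoImplicit false

namespace Pool.Agent.N24.FL

open Submodule

section

variable {D V : Type*} [DivisionRing D] [AddCommGroup V] [Module D V]

/-- A finite dimensional subspace `U` is contained in a finite dimensional subspace with a complement
in the subspace `W` of finite codimension. -/
theorem exists_XY (U W : Submodule D V) [FiniteDimensional D U] [FiniteDimensional D (V ⧸ W)] :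
    ∃ X Y : Submodule D V, U ≤ X ∧ Y ≤ W ∧ IsCompl X Y ∧ FiniteDimensional D X := by
  obtain ⟨F, hF⟩ := Submodule.exists_isCompl W
  have hFf : FiniteDimensional D F :=
    Module.Finite.equiv (Submodule.quotientEquivOfIsCompl W F hF)
  obtain ⟨Y, hY1, hY2⟩ := IsModularLattice.exists_inf_eq_and_sup_eq
    (bot_le : (⊥ : Submodule D V) ≤ (U ⊔ F) ⊓ W) (inf_le_right : (U ⊔ F) ⊓ W ≤ W)
  refine ⟨U ⊔ F, Y, le_sup_left, ?_, ?_, inferInstance⟩
  · rw [← hY2]
    exact le_sup_right
  · have hYW : Y ≤ W := by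
      rw [← hY2]
      exact le_sup_right
    refine ⟨?_, ?_⟩
    · rw [disjoint_iff]
      have h1 : (U ⊔ F) ⊓ Y ≤ (U ⊔ F) ⊓ W ⊓ Y :=
        le_inf (le_inf inf_le_left (inf_le_right.trans hYW)) inf_le_right
      rw [hY1] at h1
      exact le_bot_iff.1 h1
    · rw [codisjoint_iff]
      have h1 : W ≤ (U ⊔ F) ⊔ Y := by
        rw [← hY2]
        exact sup_le (inf_le_left.trans le_sup_left) le_sup_right
      have h2 : W ⊔ F ≤ (U ⊔ F) ⊔ Y := sup_le h1 (le_sup_right.trans le_sup_left)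
      rw [hF.sup_eq_top] at h2
      exact top_le_iff.1 h2

theorem isCompl_comap {X Y T : Submodule D V} (h : IsCompl X Y) (hX : X ≤ T) :
    IsCompl (X.comap T.subtype) (Y.comap T.subtype) := by
  refine ⟨?_, ?_⟩
  · rw [Submodule.disjoint_def]
    intro x h1 h2
    apply Subtype.ext
    exact Submodule.disjoint_def.1 h.disjoint x.1 h1 h2
  · rw [codisjoint_iff, eq_top_iff]
    intro x _
    have h1 : (x : V) ∈ X ⊔ Y := by
      rw [h.sup_eq_top]
      trivial
    obtain ⟨a, ha, b, hb, hab⟩ := Submodule.mem_sup.1 h1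
    have hbT : b ∈ T := by
      have : b = x - a := by rw [← hab]; abel
      rw [this]
      exact T.sub_mem x.2 (hX ha)
    refine Submodule.mem_sup.2 ⟨⟨a, hX ha⟩, ha, ⟨b, hbT⟩, hb, ?_⟩
    apply Subtype.ext
    exact hab

theorem finrank_compl {X Y T : Submodule D V} [FiniteDimensional D T] (h : IsCompl X Y)
    (hX : X ≤ T) : Module.finrank D (X.comap T.subtype) + Module.finrank D (Y.comap T.subtype) =
      Module.finrank D T :=
  Submodule.finrank_add_eq_of_isCompl (isCompl_comap h hX)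

/-- The automorphism `g` of `V` can be changed along `Y` to an automorphism of a finite dimensional
subspace. -/
theorem exists_p (g : V ≃ₗ[D] V) (X Y : Submodule D V) (hXY : IsCompl X Y) (T : Submodule D V)
    [FiniteDimensional D T] (hX : X ≤ T) (hgX : X.map g.toLinearMap ≤ T) :
    ∃ p : T ≃ₗ[D] T, (∀ x : T, (x : V) ∈ X → (p x : V) = g x) ∧
      ∀ x : T, (p x : V) - g x ∈ Y.map g.toLinearMap := by
  have hXY' : IsCompl (X.map g.toLinearMap) (Y.map g.toLinearMap) := by
    have := (Submodule.orderIsoMapComap g).isCompl hXY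
    exact this
  set X₁ := X.comap T.subtype with hX₁
  set Y₁ := Y.comap T.subtype with hY₁
  set X₂ := (X.map g.toLinearMap).comap T.subtype with hX₂
  set Y₂ := (Y.map g.toLinearMap).comap T.subtype with hY₂
  have c1 : IsCompl X₁ Y₁ := isCompl_comap hXY hX
  have c2 : IsCompl X₂ Y₂ := isCompl_comap hXY' hgX
  -- the map `g` on `X`
  let e : X₁ ≃ₗ[D] X₂ := LinearEquiv.ofBijective
    ({ toFun := fun x => ⟨⟨g (x.1 : V), hgX ⟨_, x.2, rfl⟩⟩, ⟨_, x.2, rfl⟩⟩
       map_add' := fun x y => by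
        apply Subtype.ext; apply Subtype.ext
        show g ((x.1 : V) + (y.1 : V)) = g (x.1 : V) + g (y.1 : V)
        exact map_add _ _ _
       map_smul' := fun r x => by
        apply Subtype.ext; apply Subtype.ext
        show g (r • (x.1 : V)) = r • g (x.1 : V)
        exact map_smul _ _ _ } : X₁ →ₗ[D] X₂)
    ⟨fun x y h => by
      apply Subtype.ext; apply Subtype.ext
      apply g.injective
      exact congrArg (fun z : X₂ => ((z : T) : V)) h,
     fun y => by
      obtain ⟨x, hx, hxy⟩ := y.2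
      exact ⟨⟨⟨x, hX hx⟩, hx⟩, Subtype.ext (Subtype.ext hxy)⟩⟩
  have he : ∀ x : X₁, ((e x : T) : V) = g ((x : T) : V) := fun x => rfl
  have hdim : Module.finrank D Y₁ = Module.finrank D Y₂ := by
    have h1 := finrank_compl hXY hX
    have h2 := finrank_compl hXY' hgX
    have h3 : Module.finrank D X₁ = Module.finrank D X₂ := LinearEquiv.finrank_eq e
    rw [← hX₁, ← hY₁] at h1
    rw [← hX₂, ← hY₂] at h2
    omega
  let θ : Y₁ ≃ₗ[D] Y₂ := LinearEquiv.ofFinrankEq _ _ hdim
  let p : T ≃ₗ[D] T := (Submodule.prodEquivOfIsCompl X₁ Y₁ c1).symm ≪≫ₗ (e.prodCongr θ) ≪≫ₗ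
    (Submodule.prodEquivOfIsCompl X₂ Y₂ c2)
  have hp : ∀ (x : X₁) (y : Y₁), p ((x : T) + (y : T)) = (e x : T) + (θ y : T) := by
    intro x y
    have h1 : (x : T) + (y : T) = Submodule.prodEquivOfIsCompl X₁ Y₁ c1 (x, y) := rfl
    show (Submodule.prodEquivOfIsCompl X₂ Y₂ c2) ((e.prodCongr θ)
      ((Submodule.prodEquivOfIsCompl X₁ Y₁ c1).symm _)) = _
    rw [h1, LinearEquiv.symm_apply_apply]
    rfl
  refine ⟨p, ?_, ?_⟩
  · intro x hx
    have h1 := hp ⟨x, hx⟩ 0
    have h2 : (((⟨x, hx⟩ : X₁) : T) + ((0 : Y₁) : T)) = x := by simp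
    rw [h2] at h1
    rw [h1]
    simp only [map_zero, Submodule.coe_zero, add_zero]
    exact he ⟨x, hx⟩
  · intro x
    obtain ⟨a, ha, b, hb, hab⟩ := Submodule.mem_sup.1
      (show x ∈ X₁ ⊔ Y₁ by rw [c1.sup_eq_top]; trivial)
    have h1 := hp ⟨a, ha⟩ ⟨b, hb⟩
    simp only at h1
    rw [hab] at h1
    rw [h1]
    have h2 : (((e ⟨a, ha⟩ : T) + (θ ⟨b, hb⟩ : T) : T) : V) - g (x : V) =
        ((θ ⟨b, hb⟩ : T) : V) - g (b : V) := by
      rw [Submodule.coe_add, he, ← hab, Submodule.coe_add, map_add]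
      abel
    rw [h2]
    refine Submodule.sub_mem _ (θ ⟨b, hb⟩).2 ⟨_, hb, rfl⟩

end

end Pool.Agent.N24.FL
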