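import Pool.Agent.N24.FL.Lin
import Pool.Agent.R779.FJ.Col

/-!
# Extensions whose kernel acts by finitary linear automorphisms
-/

set_option autoImplicit false

namespace Pool.Agent.N24.FL

open Pool.Agent.Y110.FJ

section

variable {G D V : Type} [Group G] [DivisionRing D] [AddCommGroup V] [Module D V]

theorem one_ap (v : V) : (1 : V ≃ₗ[D] V) v = v := rfl

/-- the elements which move all vectors by elements of `U` only and fix the elements of `W` -/
def bnd (ρ : G →* (V ≃ₗ[D] V)) (U W : Submodule D V) : Subgroup G where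
  carrier := {x | (∀ v, ρ x v - v ∈ U) ∧ ∀ w ∈ W, ρ x w = w}
  one_mem' := ⟨fun v => by simp, fun w _ => by simp⟩
  mul_mem' := by
    rintro x y ⟨hx, hx'⟩ ⟨hy, hy'⟩
    refine ⟨fun v => ?_, fun w hw => ?_⟩
    · have h1 : ρ (x * y) v - v = (ρ x (ρ y v) - ρ y v) + (ρ y v - v) := by
        rw [map_mul, LinearEquiv.mul_apply]
        abel
      rw [h1]
      exact U.add_mem (hx _) (hy _)
    · rw [map_mul, LinearEquiv.mul_apply, hy' w hw, hx' w hw]
  inv_mem' := by
    rintro x ⟨hx, hx'⟩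
    have h0 : ∀ v, ρ x (ρ x⁻¹ v) = v := fun v => by
      rw [← LinearEquiv.mul_apply, ← map_mul, mul_inv_cancel, map_one, one_ap]
    refine ⟨fun v => ?_, fun w hw => ?_⟩
    · have h1 : ρ x⁻¹ v - v = -(ρ x (ρ x⁻¹ v) - ρ x⁻¹ v) := by
        rw [h0]
        abel
      rw [h1]
      exact U.neg_mem (hx _)
    · apply (ρ x).injective
      rw [h0, hx' w hw]

theorem exists_bnd (ρ : G →* (V ≃ₗ[D] V)) (S : Set G) (hS : S.Finite)
    (h : ∀ x ∈ S, FiniteDimensional D (LinearMap.range ((ρ x).toLinearMap - LinearMap.id))) :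
    ∃ U W : Submodule D V, FiniteDimensional D U ∧ FiniteDimensional D (V ⧸ W) ∧
      S ⊆ bnd ρ U W := by
  induction S, hS using Set.Finite.induction_on with
  | empty =>
    refine ⟨⊥, ⊤, inferInstance, inferInstance, Set.empty_subset _⟩
  | @insert a S ha hS ih =>
    obtain ⟨U, W, hU, hW, hUW⟩ := ih fun x hx => h x (Set.mem_insert_of_mem a hx)
    set d := (ρ a).toLinearMap - LinearMap.id with hd
    have hr : FiniteDimensional D (LinearMap.range d) := h a (Set.mem_insert a S)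
    have hk : FiniteDimensional D (V ⧸ LinearMap.ker d) :=
      Module.Finite.equiv d.quotKerEquivRange.symm
    refine ⟨LinearMap.range d ⊔ U, LinearMap.ker d ⊓ W, inferInstance, ?_, ?_⟩
    · -- `V / (A ⊓ B)` embeds in `V / A × V / B`
      let f : V →ₗ[D] (V ⧸ LinearMap.ker d) × (V ⧸ W) :=
        (Submodule.mkQ _).prod (Submodule.mkQ _)
      have hf : LinearMap.ker f = LinearMap.ker d ⊓ W := by
        rw [LinearMap.ker_prod, Submodule.ker_mkQ, Submodule.ker_mkQ]
      have h1 : FiniteDimensional D (V ⧸ LinearMap.ker f) :=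
        Module.Finite.equiv f.quotKerEquivRange.symm
      rwa [hf] at h1
    · intro x hx
      rcases Set.mem_insert_iff.1 hx with rfl | hx
      · refine ⟨fun v => ?_, fun w hw => ?_⟩
        · exact Submodule.mem_sup_left ⟨v, rfl⟩
        · have h1 : d w = 0 := hw.1
          have h2 : d w = ρ x w - w := rfl
          rw [h2] at h1
          exact sub_eq_zero.1 h1
      · obtain ⟨h1, h2⟩ := hUW hx
        exact ⟨fun v => Submodule.mem_sup_right (h1 v), fun w hw => h2 w hw.2⟩

theorem ap_inv (ρ : G →* (V ≃ₗ[D] V)) (x : G) (v : V) : ρ x (ρ x⁻¹ v) = v := by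
  rw [← LinearEquiv.mul_apply, ← map_mul, mul_inv_cancel, map_one, one_ap]

theorem inv_ap (ρ : G →* (V ≃ₗ[D] V)) (x : G) (v : V) : ρ x⁻¹ (ρ x v) = v := by
  rw [← LinearEquiv.mul_apply, ← map_mul, inv_mul_cancel, map_one, one_ap]

/-- the restriction of one element to an invariant subspace -/
def rst1 (ρ : G →* (V ≃ₗ[D] V)) (T : Submodule D V) (x : G)
    (h1 : ∀ v ∈ T, ρ x v ∈ T) (h2 : ∀ v ∈ T, ρ x⁻¹ v ∈ T) : T ≃ₗ[D] T where
  toFun v := ⟨ρ x (v : V), h1 _ v.2⟩
  invFun v := ⟨ρ x⁻¹ (v : V), h2 _ v.2⟩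
  map_add' v w := Subtype.ext (map_add (ρ x) (v : V) (w : V))
  map_smul' r v := Subtype.ext (map_smul (ρ x) r (v : V))
  left_inv v := Subtype.ext (inv_ap ρ x (v : V))
  right_inv v := Subtype.ext (ap_inv ρ x (v : V))

/-- the restriction to an invariant subspace -/
def rst (ρ : G →* (V ≃ₗ[D] V)) (T : Submodule D V) (H : Subgroup G)
    (hH : ∀ x ∈ H, ∀ v ∈ T, ρ x v ∈ T) : H →* (T ≃ₗ[D] T) where
  toFun x := rst1 ρ T x (hH x x.2) (hH _ (H.inv_mem x.2))
  map_one' := by
    ext v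
    show ρ ((1 : H) : G) (v : V) = v
    rw [OneMemClass.coe_one, map_one, one_ap]
  map_mul' x y := by
    ext v
    show ρ ((x * y : H) : G) (v : V) = ρ (x : G) (ρ (y : G) (v : V))
    rw [Subgroup.coe_mul, map_mul, LinearEquiv.mul_apply]

theorem rst_apply (ρ : G →* (V ≃ₗ[D] V)) (T : Submodule D V) (H : Subgroup G)
    (hH : ∀ x ∈ H, ∀ v ∈ T, ρ x v ∈ T) (x : H) (v : T) :
    ((rst ρ T H hH x v : T) : V) = ρ (x : G) (v : V) := rfl

/-- **the conjugation on finitely many finitary elements is realized in a finite dimensional general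
linear group** -/
theorem realized (C : ∀ (G : Type) [Group G], Prop) (hC : ClosedE C)
    (hD : ∀ n : ℕ, C ((Fin n → D) ≃ₗ[D] (Fin n → D)))
    (ρ : G →* (V ≃ₗ[D] V)) (N : Subgroup G) [hN : N.Normal]
    (hinj : ∀ x ∈ N, ρ x = 1 → x = 1)
    (hfin : ∀ x ∈ N, FiniteDimensional D (LinearMap.range ((ρ x).toLinearMap - LinearMap.id)))
    (g : G) (E : Set G) (hE : E.Finite) (hEN : E ⊆ N) : Realized C g E := by
  classical
  set S : Set G := E ∪ (fun x => g * x * g⁻¹) '' E with hS
  have hSf : S.Finite := hE.union (hE.image _)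
  have hSN : S ⊆ N := by
    rintro x (hx | ⟨y, hy, rfl⟩)
    · exact hEN hx
    · exact hN.conj_mem y (hEN hy) g
  obtain ⟨U, W, hU, hW, hUW⟩ := exists_bnd ρ S hSf fun x hx => hfin x (hSN hx)
  obtain ⟨U', W', hU', hW', hUW'⟩ := exists_bnd ρ E hE fun x hx => hfin x (hEN hx)
  obtain ⟨X, Y, hX1, hY1, hXY, hXf⟩ := exists_XY U' W'
  obtain ⟨T, T', hT1, hT2, hTT, hTf⟩ := exists_XY (U ⊔ (X ⊔ X.map (ρ g).toLinearMap)) W
  have hXT : X ≤ T := (le_sup_left.trans le_sup_right).trans hT1
  have hgXT : X.map (ρ g).toLinearMap ≤ T := (le_sup_right.trans le_sup_right).trans hT1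
  have hUT : U ≤ T := le_sup_left.trans hT1
  have hcl : Subgroup.closure S ≤ bnd ρ U W := (Subgroup.closure_le _).2 hUW
  have hinv : ∀ x ∈ Subgroup.closure S, ∀ v ∈ T, ρ x v ∈ T := by
    intro x hx v hv
    have h1 : ρ x v = (ρ x v - v) + v := by abel
    rw [h1]
    exact T.add_mem (hUT ((hcl hx).1 v)) hv
  obtain ⟨p, hp1, hp2⟩ := exists_p (ρ g) X Y hXY T hXT hgXT
  refine ⟨T ≃ₗ[D] T, inferInstance, rst ρ T (Subgroup.closure S) hinv, p, ?_, ?_, ?_⟩
  · -- the group is in the class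
    let e : T ≃ₗ[D] (Fin (Module.finrank D T) → D) :=
      LinearEquiv.ofFinrankEq _ _ (by simp)
    let φ : (T ≃ₗ[D] T) →* ((Fin (Module.finrank D T) → D) ≃ₗ[D] (Fin (Module.finrank D T) → D)) :=
      { toFun := fun q => e.symm.trans (q.trans e)
        map_one' := by
          ext1 v
          show e (e.symm v) = v
          exact e.apply_symm_apply v
        map_mul' := fun q r => by
          ext1 v
          show e (q (r (e.symm v))) = e (q (e.symm (e (r (e.symm v)))))
          rw [e.symm_apply_apply] }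
    refine hC.base.of_injective _ _ φ ?_ (hD _)
    intro q r hqr
    ext1 v
    have h1 : φ q (e v) = φ r (e v) := by rw [hqr]
    have h2 : ∀ q : T ≃ₗ[D] T, φ q (e v) = e (q v) := fun q => by
      show e (q (e.symm (e v))) = _
      rw [e.symm_apply_apply]
    rw [h2, h2] at h1
    exact e.injective h1
  · -- injectivity
    rw [injective_iff_map_eq_one]
    intro x hx
    apply Subtype.ext
    have hxN : (x : G) ∈ N := (Subgroup.closure_le N).2 hSN x.2
    apply hinj _ hxN
    ext1 v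
    rw [one_ap]
    have h1 : v ∈ T ⊔ T' := by
      rw [hTT.sup_eq_top]
      trivial
    obtain ⟨a, ha, b, hb, rfl⟩ := Submodule.mem_sup.1 h1
    rw [map_add]
    have h2 : ρ (x : G) a = a := by
      have := congrArg (fun q : T ≃ₗ[D] T => ((q ⟨a, ha⟩ : T) : V)) hx
      exact this
    rw [h2, (hcl x.2).2 b (hT2 hb)]
  · -- the conjugation
    intro x y hxE hy
    rw [eq_mul_inv_iff_mul_eq]
    ext v
    show ρ (y : G) (p v : V) = ((p (rst ρ T (Subgroup.closure S) hinv x v) : T) : V)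
    -- `p v = g v + g w` with `w ∈ Y`
    obtain ⟨w, hw, hgw⟩ := hp2 v
    have hw' : ρ g w = (p v : V) - ρ g (v : V) := hgw
    have h1 : (p v : V) = ρ g ((v : V) + w) := by
      rw [map_add, hw']
      abel
    have hxE' := hUW' hxE
    have h2 : ρ (y : G) (p v : V) = ρ g (ρ (x : G) ((v : V) + w)) := by
      rw [hy, h1]
      simp only [map_mul, LinearEquiv.mul_apply]
      rw [← LinearEquiv.mul_apply (ρ g⁻¹) (ρ g), ← map_mul, inv_mul_cancel, map_one,
        one_ap]
    have h3 : ρ (x : G) w = w := hxE'.2 w (hY1 hw)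
    rw [h2, map_add, h3]
    -- `ρ x v = v + u`
    set r : T := rst ρ T (Subgroup.closure S) hinv x v with hr
    have hr' : (r : V) = ρ (x : G) (v : V) := rfl
    have h4 : ((r - v : T) : V) ∈ X := by
      rw [Submodule.coe_sub, hr']
      exact hX1 (hxE'.1 _)
    have h5 := hp1 (r - v) h4
    have h6 : p r = p (r - v) + p v := by
      rw [← map_add, sub_add_cancel]
    rw [h6, Submodule.coe_add, h5, h1, ← map_add, ← hr', Submodule.coe_sub]
    congr 1
    abel

/-- **main theorem** -/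
theorem main (C : ∀ (G : Type) [Group G], Prop) (hC : ClosedE C)
    (hD : ∀ n : ℕ, C ((Fin n → D) ≃ₗ[D] (Fin n → D)))
    (ρ : G →* (V ≃ₗ[D] V)) (N : Subgroup G) [N.Normal] (hQ : C (G ⧸ N))
    (hinj : ∀ x ∈ N, ρ x = 1 → x = 1)
    (hfin : ∀ x ∈ N, FiniteDimensional D (LinearMap.range ((ρ x).toLinearMap - LinearMap.id))) :
    C G :=
  Pool.Agent.R779.FJ.t_crit Pool.Agent.Y529.FJ.t_ext
    (Pool.Agent.Y961.FJ.t_perm Pool.Agent.Y529.FJ.t_ext) C hC G N hQ
    fun g E hE hEN => realized C hC hD ρ N hinj hfin g E hE hEN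

end

end Pool.Agent.N24.FL
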